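import Pool.Agent.Helper43x.NF.MT
import Pool.Agent.Helper43x.NF.Indep

/-!
# Almost all Frobenius elements imply the Mumford-Tate conjecture

Let `K i` be finitely many CM fields and let `p` be a prime. A family of Weil numbers `π i` in `K i` for
`q = p ^ a` gives an isogeny class of abelian varieties over the field with `q` elements, and the question
whether the Mumford-Tate conjecture holds for ALL abelian varieties `A` over number fields with a place of
good reduction, with residue field of `q` elements, where the reduction is in this isogeny class.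

Suppose that the `K i` are pairwise independent (for `i ≠ j`, and all embeddings `σ` of `K i` and `τ` of `K j`,
some automorphism of the field of algebraic numbers is the complex conjugation on `σ (K i)` and the identity
on `τ (K j)`), and that each of them has an embedding in the field of `p`-adic numbers. Then this is so for
almost all families of Weil numbers: the proportion of the exceptional families among those for `q = p ^ a`
is at most `N / ⌊a / h⌋`, where `N` is half the sum of the degrees of the `K i` and `h` is the largest class
number. There is no condition on the Galois groups of the `K i`, on the dimensions or the slopes. (For the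
families which are not exceptional, the Hodge and Tate conjectures hold for all powers of `A`, too.)

More generally this is true if there are integers `n i v`, for the places `v` of `K i` above `p`, with
`n i v̄ = - n i v`, such that the functions `(i, σ) ↦ n i (e ∘ σ)` on the set of all embeddings `σ` of the
`K i` in the algebraic numbers, for all `p`-adic places `e` of the algebraic numbers, generate all odd
functions. If this is not so, all separated families have exotic Tate classes (`MP_557161_ag.ZeroOneLaw`).
-/

set_option autoImplicit false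

namespace Pool.Agent.Results.MP_c1bb77_ag.AlmostAllFrobenius

open NumberField NumberField.IsCMField Pool.Agent.H204R3.GP

section families

variable {I : Type} {K : I → Type} [∀ i, Field (K i)]

/-- The `π i` are Weil numbers of weight one for `p ^ a`: algebraic integers all of whose complex
absolute values are `p ^ (a / 2)`. -/
def IsWeilFamily (p a : ℕ) (π : ∀ i, K i) : Prop :=
  ∀ i, IsIntegral ℤ (π i) ∧ ∀ φ : K i →+* ℂ, ‖φ (π i)‖ ^ 2 = (p : ℝ) ^ a

/-- **One Frobenius element suffices for the Mumford-Tate conjecture.** `W = H_1(A, ℚ)` with the inclusion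
`per` in the tangent space `T` and a polarization `ω₀`; `V` the rational Tate module with the comparison map
`comp : W → V`, the action `ρ` of the Galois group, semisimple over all finite extensions, the cyclotomic
character `χ` and the Weil pairing `ω`, and with the theorem of Faltings on endomorphisms. If one element
`γ` of the Galois group with `χ γ = p ^ a` has the product of the minimal polynomials of the `π i` as its
characteristic polynomial, then all Tate classes in the tensor powers of `H ^ 1 (A)` are linear combinations
of Hodge classes, and even of products of Hodge classes of degree two. -/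
def FrobeniusImpliesMumfordTate (ℓ : ℕ) [Fact ℓ.Prime] (p a : ℕ) [Fintype I] [∀ i, NumberField (K i)]
    (π : ∀ i, K i) : Prop :=
  ∀ {W T : Type} [AddCommGroup W] [Module ℚ W] [AddCommGroup T] [Module ℂ T] (per : W →+ T)
    (ω₀ : W →ₗ[ℚ] W →ₗ[ℚ] ℚ), IsHodgeBilinear per ω₀ →
    ∀ {V : Type} [AddCommGroup V] [Module ℚ_[ℓ] V] [FiniteDimensional ℚ_[ℓ] V] (comp : W →+ V)
    {Γ : Type} [Group Γ] (ρ : Representation ℚ_[ℓ] Γ V) (χ : Γ →* ℚ_[ℓ])
    (ω : V →ₗ[ℚ_[ℓ]] V →ₗ[ℚ_[ℓ]] ℚ_[ℓ]), (∀ v, ω v v = 0) → (∀ u, (∀ v, ω v u = 0) → u = 0) →
    (∀ s u v, ω (ρ s u) (ρ s v) = χ s * ω u v) →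
    (∀ x y, ω (comp x) (comp y) = ((ω₀ x y : ℚ) : ℚ_[ℓ])) →
    FiniteIndexSemisimple ρ → FaltingsEnd per comp ρ →
    ∀ γ : Γ, χ γ = (p : ℚ_[ℓ]) ^ a →
    (ρ γ).charpoly = ∏ i, (minpoly ℚ (π i)).map (algebraMap ℚ ℚ_[ℓ]) →
    MumfordTateStrong per comp ρ χ

end families

section crit

/-- The embedding that is conjugate to `σ`. -/
noncomputable def conj {K : Type} [Field K] [NumberField K] [IsCMField K] {A : Type} [Field A]
    (σ : K →+* A) : K →+* A :=
  σ.comp (complexConj K : K →+* K)

variable {I : Type} [Fintype I] (K : I → Type) [∀ i, Field (K i)] [∀ i, NumberField (K i)]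
  [∀ i, IsCMField (K i)] (p : ℕ) [Fact p.Prime]

/-- The integers `n i y`, for the embeddings `y` of `K i` in the algebraic closure of the `p`-adic
numbers, depend only on the place of `K i` defined by `y`, and they change the sign if `y` is replaced by
the conjugate embedding. -/
def IsOddOnPlaces (n : ∀ i, (K i →+* PadicAlgCl p) → ℤ) : Prop :=
  (∀ i y, n i (conj y) = - n i y) ∧ ∀ i y y', (∀ z, ‖y z‖ = ‖y' z‖) → n i y = n i y'

/-- The embeddings of the `K i` in the field of algebraic numbers. -/
abbrev Emb : Type := Σ i, K i →+* AlgebraicClosure ℚ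

variable {K p}

/-- The function `(i, σ) ↦ n i (e ∘ σ)` of a `p`-adic place `e` of the field of algebraic numbers. -/
noncomputable def values (n : ∀ i, (K i →+* PadicAlgCl p) → ℤ) (e : AlgebraicClosure ℚ →+* PadicAlgCl p)
    (x : Emb K) : ℤ :=
  n x.1 (e.comp x.2)

variable (K p)

/-- The functions `(i, σ) ↦ n i (e ∘ σ)` of all `e` generate the odd functions: no odd function other
than zero is orthogonal to all of them. -/
def IsGenerating (n : ∀ i, (K i →+* PadicAlgCl p) → ℤ) : Prop :=
  ∀ b : Emb K → ℤ, (∀ x, b ⟨x.1, conj x.2⟩ = - b x) → (∀ e, ∑ x, b x * values n e x = 0) → b = 0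

/-- For `i ≠ j`, and all embeddings `σ` of `K i` and `τ` of `K j`, there is an automorphism of the field of
algebraic numbers that is the complex conjugation on `σ (K i)` and the identity on `τ (K j)`. -/
def ArePairwiseIndependent : Prop :=
  ∀ i j, i ≠ j → ∀ (σ : K i →+* AlgebraicClosure ℚ) (τ : K j →+* AlgebraicClosure ℚ),
    ∃ g : AlgebraicClosure ℚ ≃+* AlgebraicClosure ℚ,
      (g : AlgebraicClosure ℚ →+* AlgebraicClosure ℚ).comp σ = conj σ ∧
        (g : AlgebraicClosure ℚ →+* AlgebraicClosure ℚ).comp τ = τ

/-- For all `a`, and all `h` which are at least the class numbers of the `K i`, the proportion among the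
families of Weil numbers in the `K i` for `p ^ a` of those for which the Frobenius element does not imply
the Mumford-Tate conjecture is at most `N / ⌊a / h⌋`, where `N` is half the sum of the degrees of the `K i`. -/
def AlmostAllImplyMumfordTate : Prop :=
  ∀ a h : ℕ, (∀ i, classNumber (K i) ≤ h) →
    {π : ∀ i, K i | IsWeilFamily p a π ∧
        ¬ ∀ (ℓ : ℕ) [Fact ℓ.Prime], FrobeniusImpliesMumfordTate ℓ p a π}.ncard * (a / h) ≤
      {π : ∀ i, K i | IsWeilFamily p a π}.ncard * ((∑ i, Module.finrank ℚ (K i)) / 2)

end crit

/-- **Almost all Frobenius elements imply the Mumford-Tate conjecture.** Let `K i` be finitely many CM fields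
and let `p` be a prime; the sets of the families of Weil numbers in the `K i` are finite. If there are
integers attached to the places above `p` that are odd and generating, then almost all families of Weil
numbers imply the Mumford-Tate conjecture for the abelian varieties over number fields with this Frobenius
element. This is the case if the `K i` are pairwise independent and have embeddings in the field of `p`-adic
numbers. -/
theorem result (p : ℕ) [Fact p.Prime] {I : Type} [Fintype I] (K : I → Type) [∀ i, Field (K i)]
    [∀ i, NumberField (K i)] [∀ i, IsCMField (K i)] :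
    (∀ a : ℕ, {π : ∀ i, K i | IsWeilFamily p a π}.Finite) ∧
    ((∃ n, IsOddOnPlaces K p n ∧ IsGenerating K p n) → AlmostAllImplyMumfordTate K p) ∧
    (ArePairwiseIndependent K → (∀ i, Nonempty (K i →+* ℚ_[p])) → AlmostAllImplyMumfordTate K p) := by
  have key : Helper43x.ZO.Crit p K (AlgebraicClosure ℚ) → AlmostAllImplyMumfordTate K p := by
    intro hc a h hh
    exact Helper43x.NF.almost_all K hc
      (fun a π => ∀ (ℓ : ℕ) [Fact ℓ.Prime], FrobeniusImpliesMumfordTate ℓ p a π)
      (fun a π ha h1 h2 h3 ℓ _ => Helper43x.NF.sufficesMT_of_generated ha h1 h2 h3 ℓ) a h hh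
  refine ⟨fun a => Helper43x.ZO.weil_finite_tuple p a, ?_, ?_⟩
  · rintro ⟨n, ⟨h1, h2⟩, h3⟩
    exact key ⟨n, h1, h2, h3⟩
  · intro h1 h2
    obtain ⟨_, halg⟩ : ∃ _ : Algebra ℚ (AlgebraicClosure ℚ),
        Algebra.IsAlgebraic ℚ (AlgebraicClosure ℚ) := ⟨_, AlgebraicClosure.isAlgebraic ℚ⟩
    exact key (Helper43x.NF.crit_indep p h1 fun i => (h2 i).some)

end Pool.Agent.Results.MP_c1bb77_ag.AlmostAllFrobenius
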