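import Mathlib
import Pool.Agent.Helper49M.Main
import Pool.Agent.Helper49M.Dsc

/-!
# The Mumford-Tate conjecture for abelian varieties is a statement about tensors in four variables

Let `X` be an abelian variety over a number field `k` (or a finitely generated field of characteristic
zero), with representation `ρ` of the Galois group `Γ` of `k` on the Tate module
`V = ℚ_ℓ ⊗ H_1(X, ℚ)`. The Mumford-Tate conjecture for `X` says that the Tate tensors (the multilinear
forms in `2 m` variables on `V`, for any `m`, on which a subgroup of finite index of `Γ` acts by the
`m`-th power of the cyclotomic character) are the combinations of the Hodge tensors. (By Deligne,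
Piatetski-Shapiro and Borovoi Hodge tensors are Tate tensors, and by Faltings the monodromy group is
reductive, so that the conjecture for `X` is equivalent to `TateTensorsAreHodge` below.)

**Theorem.** For every abelian variety `X` the Mumford-Tate conjecture is equivalent to its part in
degree four. More precisely, it holds as soon as the following tensors are combinations of Hodge
tensors: the forms `t(v₁, v₂, v₃, v₄)` on `V` which are fixed by the whole group `Γ` (up to the square of
the cyclotomic character; no finite extension of `k` is needed), symmetric in `v₁, v₂` and in `v₃, v₄`,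
and symmetric under the exchange of the two pairs. These are the Galois-invariant classes of
`Sym²(Sym² H¹(X, ℚ_ℓ))(2)`, which is a part of `H⁴(X⁴, ℚ_ℓ(2))`.

There is no condition on the dimension, the endomorphism algebra, the simple factors, the reductions,
the inertia groups or the Hodge numbers of `X`. In particular

* if the Tate classes of codimension two on the fourth power of `X` are Hodge classes (for instance if
  they are algebraic), then all Tate classes on all powers of `X`, over all finite extensions of `k`,
  are combinations of Hodge classes;
* if the Mumford-Tate conjecture fails for `X`, then there is an exotic Tate class of codimension two on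
  `X⁴`, defined over the field `k` itself.

Since the dimension of the space of invariant forms is a moment (the mean value of a polynomial of
degree four in the normalized Frobenius eigenvalues), this is an analogue of Larsen's alternative
(which treats the full groups `GL`, `Sp`, `O`) for arbitrary Mumford-Tate groups, their centres included.

## Proof

Let `L` be the Lie algebra of operators of `ℂ ⊗ V` (with `ℂ` as an algebraic closure of `ℚ_ℓ`) generated by
the elements `2 h - 1`, `h` a Hodge-Tate element, and their conjugates under `Γ`. It acts completely
reducibly, its commutant is spanned by `End(X)` (Faltings, Serre), and it is shown that its trace form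
is not degenerate: an element of the radical is central, acts by scalars on the irreducible
submodules, and these scalars are expressed with integral traces of involutions, so that a
`ℚ`-linear form on `ℂ` applied to the scalars gives a sum of squares equal to zero. So the Casimir
element `∑ xᵢ ⊗ yᵢ` of `L` is defined; it gives the form
`t(v₁, v₂, v₃, v₄) = ∑ ω(xᵢ v₁, v₂) ω(yᵢ v₃, v₄)`, which is invariant under `Γ`. By the hypothesis it is a
combination of Hodge tensors, so it is killed by the conjugates `D_σ` of the complex structure, which
means that `D_σ` normalizes `L`. Then the component `Y` of `D_σ` orthogonal to `L` commutes with `L`, and so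
it is a combination of endomorphisms of `X`. The traces of all endomorphisms on `D_σ` and on `2 h - 1`
are equal, and this implies that `Y` is orthogonal to all endomorphisms of `X`, hence `Y = 0`. So
`D_σ ∈ L` kills all Tate tensors, for all automorphisms `σ` of `ℂ`, and by descent all Tate tensors
are combinations of Hodge tensors.
-/

namespace Pool.Agent.Results.MP_c1bb77_ag.DegreeFour

open Module Pool.Agent.Y90 Pool.Agent.N183.U5 TensorProduct
open Pool.Agent.Y224.TS.St (IsTateModule)
open Pool.Agent.H204R3.SP (IsTate)

section defs

variable {K : Type} [Field K] [CharZero K] {Γ : Type} [Group Γ] {H T : Type} [AddCommGroup H]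
  [Module ℚ H] [AddCommGroup T] [Module ℂ T]

/-- The tensor `t` on `K ⊗ H` is a linear combination of Hodge tensors. -/
def IsHodgeComb (per : H →+ T) {m : ℕ}
    (t : MultilinearMap K (fun _ : Fin m × Fin 2 => K ⊗[ℚ] H) K) : Prop :=
  ∃ (n : ℕ) (c : Fin n → K) (f : Fin n → MultilinearMap ℚ (fun _ : Fin m × Fin 2 => H) ℚ),
    (∀ j, IsHodgeTensor per (f j)) ∧
      ∀ v : Fin m × Fin 2 → H, t (fun k => (1 : K) ⊗ₜ[ℚ] v k) = ∑ j, c j * ((f j v : ℚ) : K)

/-- The Tate tensors on the Tate module `K ⊗ H` are combinations of Hodge tensors. -/
def TateTensorsAreHodge (per : H →+ T) (ρ : Representation K Γ (K ⊗[ℚ] H)) (χ : Γ →* K) : Prop :=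
  ∀ (m : ℕ) (t : MultilinearMap K (fun _ : Fin m × Fin 2 => K ⊗[ℚ] H) K),
    IsTate ρ χ m t → IsHodgeComb per t

/-- The form `t(v₀₀, v₀₁, v₁₀, v₁₁)` in four variables is symmetric in `v₀₀` and `v₀₁`, and symmetric
under the exchange of the pairs `(v₀₀, v₀₁)` and `(v₁₀, v₁₁)`. -/
def IsPairSymmetric {V : Type} [AddCommGroup V] [Module K V]
    (t : MultilinearMap K (fun _ : Fin 2 × Fin 2 => V) K) : Prop :=
  (∀ v, t (fun k => v (Equiv.swap (0, 0) (0, 1) k)) = t v) ∧
    ∀ v, t (fun k => v (Equiv.swap 0 1 k.1, k.2)) = t v

/-- The whole group `Γ` acts on the form `t` in four variables by the square of the cyclotomic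
character. -/
def IsInvariant (ρ : Representation K Γ (K ⊗[ℚ] H)) (χ : Γ →* K)
    (t : MultilinearMap K (fun _ : Fin 2 × Fin 2 => K ⊗[ℚ] H) K) : Prop :=
  ∀ s v, t (fun k => ρ s (v k)) = χ s ^ 2 * t v

/-- The part of the Mumford-Tate conjecture in degree four. -/
def DegreeFourPart (per : H →+ T) (ρ : Representation K Γ (K ⊗[ℚ] H)) (χ : Γ →* K) : Prop :=
  ∀ t : MultilinearMap K (fun _ : Fin 2 × Fin 2 => K ⊗[ℚ] H) K,
    IsInvariant ρ χ t → IsPairSymmetric t → IsHodgeComb per t

end defs

/-- **Theorem.** Let `X` be an abelian variety over a number field or a finitely generated field,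
given (as a complex abelian variety) by `X : AV`, a polarization `E` and the representation `ρ` of
the Galois group `Γ` on the Tate module `ℚ_ℓ ⊗ H_1(X, ℚ)`, with the known properties of the Tate
module (`IsTateModule`; `χ` is the cyclotomic character, and `ℂ` is identified with an algebraic
closure of `ℚ_ℓ`). Then all Tate tensors, of all degrees and over all finite extensions, are
combinations of Hodge tensors if and only if this holds for the pair-symmetric Galois-invariant
forms in four variables. -/
theorem result (X : AV) (E : X.H → X.H → ℚ) (hE : Pool.Agent.Y90.St.IsPolarization X.per E)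
    (ℓ : ℕ) [Fact ℓ.Prime] [Algebra ℚ_[ℓ] ℂ] [Algebra.IsAlgebraic ℚ_[ℓ] ℂ]
    {Γ : Type} [Group Γ] (ρ : Representation ℚ_[ℓ] Γ (ℚ_[ℓ] ⊗[ℚ] X.H)) (χ : Γ →* ℚ_[ℓ])
    (hρ : IsTateModule X.per E ρ χ) :
    TateTensorsAreHodge X.per ρ χ ↔ DegreeFourPart X.per ρ χ := by
  constructor
  · intro h t ht _
    exact h 2 t ⟨⊤, inferInstance, fun s _ v => ht s v⟩
  · intro h m t ht
    refine Pool.Agent.Helper49M.main_of Pool.Agent.Helper49M.s_dsc2 X hE hρ (fun t h1 h2 => ?_) t ht
    refine h t h1 ⟨fun v => h2 _ (Or.inl rfl) v, fun v => ?_⟩
    exact h2 _ (Or.inr rfl) v

end Pool.Agent.Results.MP_c1bb77_ag.DegreeFour
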