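import Mathlib
import Pool.Agent.Helper43y.Mt
import Pool.Agent.Helper43y.Tra

/-!
# The Mumford-Tate conjecture from products of two eigenvalues of one Frobenius element

Let `X` be an abelian variety over a number field (or a finitely generated field of characteristic
zero), with representation `ρ` of the Galois group on the Tate module `V = ℚ_ℓ ⊗ H_1(X, ℚ)`. The
Mumford-Tate conjecture says that the Tate tensors (the multilinear forms in `2 m` variables on `V`
for which a subgroup of finite index of the Galois group acts by the `m`-th power of the cyclotomic
character) are the combinations of the Hodge tensors. (By Deligne, Piatetski-Shapiro and Borovoi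
Hodge tensors are Tate tensors, and by Faltings the monodromy group is reductive, so that the
conjecture is equivalent to the conclusion `TateTensorsAreHodge` below, for `X`.)

**Theorem.** The conjecture holds for `X` if

* every simple factor `Y` of `X` over `ℂ` (they occur with arbitrary multiplicities, and any number of
  factors is allowed) belongs to one of the classes in `GoodThree`: the dimension is at most three, or
  `Y` has complex multiplication, or it belongs to one of the classes `QuadThree`, `RealOdd`,
  `CopMult` of the starting library, or to the **new class** `FrobTwo` (see below);
* for all pairs `s ≠ s'` of homomorphisms of the centre `F = ℚ[φ]` of `End(X) ⊗ ℚ` into `ℂ` the signatures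
  are separated (`SepPair`; this is trivial if `s` or `s'` is real, or if all `s` which belong to
  factors without complex multiplication are mixed), or **some element of the Galois group has on
  `V_s` and on `V_s'` sets of eigenvalues which are not proportional** (`NotProportional`).

**The new class.** Let `ℚ[a]` be a maximal subfield of the endomorphism algebra of `Y`. The simple
abelian variety `Y` belongs to the class `FrobTwo` if for every embedding `s` of `ℚ[a]` there is an
element `γ` of the Galois group (for instance a Frobenius element at a place of good reduction, which
may depend on `s`) for which one of the following conditions on the products of two eigenvalues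
`α 1, …, α n` of `γ` on `V_s` holds.

* *Isolated pair* (`HasIsolatedPair`), for `Y` of Albert type I or II: there are two indices `i₀`, `i₁`
  such that the function `h` with `h i₀ = 1`, `h i₁ = -1` and `h i = 0` for the other `i` is additive:
  if `α i * α j = α k * α l` then `h i + h j = h k + h l`.
* *Coprime set* (`HasCoprimeSet`), for all Albert types: there is a set of indices, different from
  the empty set and the whole set, of cardinality prime to `n`, whose characteristic function is
  additive in this sense.

Examples of isolated pairs (`Pool/Agent/Helper43y/Tra.lean`, `isolated_of_swap`, `isolated_of_hom`).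

* If some automorphism of `ℂ` exchanges the two eigenvalues `α i₀`, `α i₁` and fixes the other ones,
  then this is an isolated pair, provided that `(α i₀ / α i₁) ^ k ≠ 1` for `k ≤ 4`. So for `Y` with
  `End(Y) = ℤ` it is enough that *one* Frobenius polynomial (of degree `2 g`) has a Galois group
  which contains a transposition `x ↔ q / x` of two roots. Almost all polynomials have this property,
  but the polynomial may be reducible and the rank of the group generated by the eigenvalues may be
  as small as two.
* The same holds if some homomorphism of the multiplicative group (for instance a `p`-adic valuation)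
  has the value `c x` at `α i₀`, `c / x` at `α i₁` and `c` at the other eigenvalues. (For
  `End(Y) = ℤ` and valuations these are the abelian varieties with a reduction of K3 type of Zarhin.)

There is no condition on the topology of the image of the Galois group, on inertia groups, or on the
other simple factors of the reduction.

**The proof.** By Faltings and Serre the Lie algebra `𝔤` of the monodromy group acts irreducibly on
the `V_s` and is generated by Hodge-Tate cocharacters, and it is normalized by `γ`. The operator
`Ad(γ)` of `End(V_s)` has the eigenvalues `α i / α j`. By the additivity the
grading of `End(V_s)` given by `h i - h j` is coarser than the decomposition into its eigenspaces;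
hence `𝔤` is graded, although the element `h` itself need not belong to `𝔤`. For isolated pairs the
part of degree `-1` of `𝔤`, which consists of operators of rank at most two, is shown to generate
elements of rank one (`Pool.Agent.Helper43y.rk1_of_pair`), without the classification of irreducible
subalgebras, and elements of rank one give the symplectic Lie algebra. For coprime sets the method of
the starting library for two classes of eigenvalues is applied to the same grading. Finally
Goursat's lemma (for Lie algebras with elements of rank one) is applied, where twisted isomorphisms
`V_s ≅ V_s' ⊗ ψ` are excluded by `SepPair` or `NotProportional`.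
-/

namespace Pool.Agent.Results.MP_c1bb77_ag.OneIsolatedPair

open Module Pool.Agent.Y90 Pool.Agent.R915 Pool.Agent.N183.U5 Pool.Agent.Helper43y TensorProduct
open Polynomial
open Pool.Agent.Y224.TS.St (IsTateModule)
open Pool.Agent.H204R3.SP (IsTate)

section defs

variable {K : Type} [Field K] [CharZero K] {Γ : Type} [Group Γ] {H T : Type} [AddCommGroup H]
  [Module ℚ H] [AddCommGroup T] [Module ℂ T]

/-- The tensor `t` on `K ⊗ H` is a linear combination of Hodge tensors. -/
def IsHodgeComb (per : H →+ T) {m : ℕ}
    (t : MultilinearMap K (fun _ : Fin m × Fin 2 => K ⊗[ℚ] H) K) : Prop :=
  ∃ (n : ℕ) (c : Fin n → K) (f : Fin n → MultilinearMap ℚ (fun _ : Fin m × Fin 2 => H) ℚ),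
    (∀ j, IsHodgeTensor per (f j)) ∧
      ∀ v : Fin m × Fin 2 → H, t (fun k => (1 : K) ⊗ₜ[ℚ] v k) = ∑ j, c j * ((f j v : ℚ) : K)

/-- The Tate tensors on the Tate module `K ⊗ H` are combinations of Hodge tensors. -/
def TateTensorsAreHodge (per : H →+ T) (ρ : Representation K Γ (K ⊗[ℚ] H)) (χ : Γ →* K) : Prop :=
  ∀ (m : ℕ) (t : MultilinearMap K (fun _ : Fin m × Fin 2 => K ⊗[ℚ] H) K),
    IsTate ρ χ m t → IsHodgeComb per t

end defs

/-- **Theorem.** Let `X` be an abelian variety over a number field or a finitely generated field,
given (as a complex abelian variety) by `X : AV`, a polarization `E` and the representation `ρ` of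
the Galois group `Γ` on the Tate module `ℚ_ℓ ⊗ H_1(X, ℚ)`, with the known properties of the Tate
module (`IsTateModule`; `χ` is the cyclotomic character, and `ℂ` is identified with an algebraic
closure of `ℚ_ℓ`). Suppose that all simple factors of `X` belong to the classes `GoodThree`. Let `φ`
be a generator of the centre of the endomorphism algebra, with the action `Ψ` on the tangent space,
and suppose that for all pairs of roots `s ≠ s'` of its minimal polynomial the signatures are separated
or the eigenvalues of an element of the Galois group on `V_s` and `V_s'` are not proportional
(`PairsSeparated`). Then all Tate tensors are combinations of Hodge tensors. -/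
theorem result (X : AV) (E : X.H → X.H → ℚ) (hE : Pool.Agent.Y90.St.IsPolarization X.per E)
    (ℓ : ℕ) [Fact ℓ.Prime] [Algebra ℚ_[ℓ] ℂ] [Algebra.IsAlgebraic ℚ_[ℓ] ℂ]
    {Γ : Type} [Group Γ] (ρ : Representation ℚ_[ℓ] Γ (ℚ_[ℓ] ⊗[ℚ] X.H)) (χ : Γ →* ℚ_[ℓ])
    (hρ : IsTateModule X.per E ρ χ) (hX : ∀ Y, IsFactor Y X → GoodThree X ρ Y)
    (φ : Module.End ℚ X.H) (Ψ : Module.End ℂ X.T) (hφ : CentreGen X φ)
    (hs : PairsSeparated X.per ρ φ Ψ) : TateTensorsAreHodge X.per ρ χ :=
  fun _ t ht => tate_tensor' X hE hX hφ hs.1 hs.2 hρ t ht

end Pool.Agent.Results.MP_c1bb77_ag.OneIsolatedPair
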