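import Pool.Agent.Helper43x.NF.MT

/-!
# The Mumford-Tate conjecture for abelian varieties with one reduction without exotic Tate classes

Let `A` be an abelian variety over a number field with good reduction at ONE place `v`, with residue field
of `p ^ a` elements, whose reduction `A_v` is isogenous to a product of simple abelian varieties with
Frobenius elements `π i` in CM fields `K i`. Suppose that the family `π` is separated: the factors of `A_v`
stay simple, with endomorphism fields `K i`, and not isogenous, over an algebraic closure.

Theorem. (A) If all Tate classes on the powers of the reduction `A_v` are generated by classes of divisors,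
the Mumford-Tate conjecture holds for `A`, and the Hodge and Tate conjectures hold for all powers of `A`.

(B) There is no condition on `v` besides separatedness if the fields `K i` satisfy: for all `i` the stable
spaces of odd functions on the set of the embeddings of `K i` in the algebraic numbers are zero, or the space
of all odd functions, or that of the odd functions invariant under an automorphism of `K i` other than the
identity and the complex conjugation; and for `i ≠ j`, and all embeddings `σ` of `K i` and `τ` of `K j`, some
automorphism of the field of algebraic numbers is the complex conjugation on `σ (K i)` and the identity on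
`τ (K j)`. By `MP_557161_ag.FieldsWithoutExoticClasses` this condition on the fields is also necessary for
the condition in (A) to hold for all separated families of Weil numbers in the `K i`.

The starting result `OneFrobeniusTowers` is a special case of (A): there the CM fields are `r i`-power
extensions of smaller ones with nondegenerate signatures.
-/

set_option autoImplicit false

namespace Pool.Agent.Results.MP_c1bb77_ag.ReductionWithoutExoticClasses

open NumberField NumberField.IsCMField Pool.Agent.H204R3.GP

section families

variable {I : Type} {K : I → Type} [∀ i, Field (K i)]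

/-- The `π i` are Weil numbers of weight one for `p ^ a`: algebraic integers all of whose complex
absolute values are `p ^ (a / 2)`. -/
def IsWeilFamily (p a : ℕ) (π : ∀ i, K i) : Prop :=
  ∀ i, IsIntegral ℤ (π i) ∧ ∀ φ : K i →+* ℂ, ‖φ (π i)‖ ^ 2 = (p : ℝ) ^ a

/-- For all positive `n` the complex conjugates of the `n`-th powers of all the `π i` are different:
the powers of `π i` generate `K i`, and they are not conjugate to those of `π j` for `j ≠ i`. -/
def IsSeparated (π : ∀ i, K i) : Prop :=
  ∀ n : ℕ, 0 < n → Function.Injective fun x : Σ i, K i →+* ℂ => x.2 (π x.1) ^ n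

/-- **One Frobenius element suffices for the Mumford-Tate conjecture.** `W = H_1(A, ℚ)` with the inclusion
`per` in the tangent space `T` and a polarization `ω₀`; `V` the rational Tate module with the comparison map
`comp : W → V`, the action `ρ` of the Galois group, semisimple over all finite extensions, the cyclotomic
character `χ` and the Weil pairing `ω`, and with the theorem of Faltings on endomorphisms. If one element
`γ` of the Galois group with `χ γ = p ^ a` has the product of the minimal polynomials of the `π i` as its
characteristic polynomial, then all Tate classes in the tensor powers of `H ^ 1 (A)` are linear combinations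
of Hodge classes, and even of products of Hodge classes of degree two. -/
def FrobeniusImpliesMumfordTate (ℓ : ℕ) [Fact ℓ.Prime] (p a : ℕ) [Fintype I] [∀ i, NumberField (K i)]
    (π : ∀ i, K i) : Prop :=
  ∀ {W T : Type} [AddCommGroup W] [Module ℚ W] [AddCommGroup T] [Module ℂ T] (per : W →+ T)
    (ω₀ : W →ₗ[ℚ] W →ₗ[ℚ] ℚ), IsHodgeBilinear per ω₀ →
    ∀ {V : Type} [AddCommGroup V] [Module ℚ_[ℓ] V] [FiniteDimensional ℚ_[ℓ] V] (comp : W →+ V)
    {Γ : Type} [Group Γ] (ρ : Representation ℚ_[ℓ] Γ V) (χ : Γ →* ℚ_[ℓ])
    (ω : V →ₗ[ℚ_[ℓ]] V →ₗ[ℚ_[ℓ]] ℚ_[ℓ]), (∀ v, ω v v = 0) → (∀ u, (∀ v, ω v u = 0) → u = 0) →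
    (∀ s u v, ω (ρ s u) (ρ s v) = χ s * ω u v) →
    (∀ x y, ω (comp x) (comp y) = ((ω₀ x y : ℚ) : ℚ_[ℓ])) →
    FiniteIndexSemisimple ρ → FaltingsEnd per comp ρ →
    ∀ γ : Γ, χ γ = (p : ℚ_[ℓ]) ^ a →
    (ρ γ).charpoly = ∏ i, (minpoly ℚ (π i)).map (algebraMap ℚ ℚ_[ℓ]) →
    MumfordTateStrong per comp ρ χ

variable {Ω V : Type} [Field Ω] [AddCommGroup V] [Module Ω V]

/-- The classes in `⋀ ^ (2 m) V` that are multiplied by `(q ^ m) ^ s` by `F ^ s`. -/
def tateClasses (F : V →ₗ[Ω] V) (q : ℕ) (m s : ℕ) : Set (ExteriorAlgebra Ω V) :=
  {x | x ∈ ⋀[Ω]^(2 * m) V ∧ ExteriorAlgebra.map (F ^ s) x = ((q : Ω) ^ m) ^ s • x}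

/-- `V` is spanned by eigenvectors of `F` whose eigenvalues are images in `Ω` of the `π i`. -/
def HasEigenvalues (π : ∀ i, K i) (F : V →ₗ[Ω] V) : Prop :=
  Submodule.span Ω {v : V | ∃ i, ∃ σ : K i →+* Ω, F v = σ (π i) • v} = ⊤

/-- All Tate classes on the powers of the reduction are generated by classes of divisors: all Tate
classes, over all finite extensions, in the even exterior powers of Frobenius modules with eigenvalues
conjugate to the `π i` are polynomials in the Tate classes of degree two. -/
def ReductionGenerated (π : ∀ i, K i) (q : ℕ) : Prop :=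
  ∀ {Ω V : Type} [Field Ω] [IsAlgClosed Ω] [CharZero Ω] [AddCommGroup V] [Module Ω V]
    (F : V →ₗ[Ω] V), HasEigenvalues π F → ∀ m s : ℕ, 0 < s →
      ∀ x ∈ tateClasses F q m s, x ∈ Algebra.adjoin Ω (tateClasses F q 1 1)

end families

section fields

/-- The field of algebraic numbers. -/
abbrev QBar : Type := AlgebraicClosure ℚ

variable (K : Type) [Field K] [NumberField K] [IsCMField K]

variable {K} in
/-- The embedding that is conjugate to `σ`. -/
noncomputable def conj (σ : K →+* QBar) : K →+* QBar :=
  σ.comp (complexConj K : K →+* K)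

variable {K} in
/-- The function `f` on the embeddings changes the sign under complex conjugation. -/
def IsOdd (f : (K →+* QBar) → ℚ) : Prop := ∀ σ, f (conj σ) = - f σ

variable {K} in
/-- A space of functions on the embeddings is stable under the Galois group. -/
def IsStable (W : Submodule ℚ ((K →+* QBar) → ℚ)) : Prop :=
  ∀ g : QBar ≃+* QBar, ∀ f ∈ W, (fun σ => f ((g : QBar →+* QBar).comp σ)) ∈ W

variable {K} in
/-- The space `W` consists of the odd functions that are invariant under the automorphism `s` of `K`. -/
def IsSpaceOf (s : K ≃+* K) (W : Submodule ℚ ((K →+* QBar) → ℚ)) : Prop :=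
  ∀ f, f ∈ W ↔ IsOdd f ∧ ∀ σ, f (σ.comp (s : K →+* K)) = f σ

/-- Every stable space of odd functions is zero, or contains all odd functions, or consists of the odd
functions that are invariant under an automorphism of `K` which is neither the identity nor the complex
conjugation. -/
def IsSmall : Prop :=
  ∀ W : Submodule ℚ ((K →+* QBar) → ℚ), (∀ f ∈ W, IsOdd f) → IsStable W →
    W = ⊥ ∨ (∀ f, IsOdd f → f ∈ W) ∨
      ∃ s : K ≃+* K, s ≠ RingEquiv.refl K ∧ (s : K →+* K) ≠ (complexConj K : K →+* K) ∧
        IsSpaceOf s W

/-- For all embeddings `σ` of `K` and `τ` of `K'` there is an automorphism of the field of algebraic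
numbers that is the complex conjugation on `σ (K)` and the identity on `τ (K')`. -/
def AreIndependent (K' : Type) [Field K'] : Prop :=
  ∀ (σ : K →+* QBar) (τ : K' →+* QBar), ∃ g : QBar ≃+* QBar,
    (g : QBar →+* QBar).comp σ = conj σ ∧ (g : QBar →+* QBar).comp τ = τ

end fields

section proof

theorem generated_iff {I : Type} {K : I → Type} [∀ i, Field (K i)] (π : ∀ i, K i) (q : ℕ) :
    ReductionGenerated π q ↔ Helper43x.ZO.Generated π q := by
  have h2 : ∀ {Ω V : Type} [Field Ω] [AddCommGroup V] [Module Ω V] (F : V →ₗ[Ω] V),
      tateClasses F q 1 1 = {y : ExteriorAlgebra Ω V |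
        y ∈ ⋀[Ω]^2 V ∧ ExteriorAlgebra.map F y = (q : Ω) • y} := by
    intro Ω V _ _ _ F
    ext y
    simp only [tateClasses, mul_one, pow_one]
  constructor
  · intro h Ω V _ _ _ _ _ F hF m s hs x hx hFx
    rw [← h2]
    exact h F hF m s hs x ⟨hx, hFx⟩
  · intro h Ω V _ _ _ _ _ F hF m s hs x hx
    rw [h2]
    exact h F hF m s hs x hx.1 hx.2

end proof

/-- **The Mumford-Tate conjecture from one reduction.** (A) One Frobenius element of an abelian variety over
a number field whose eigenvalues are given by a separated family of Weil numbers implies the Mumford-Tate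
conjecture, for all `ℓ`, if the Tate classes on the powers of the reduction are generated in degree two. (B)
This condition is always satisfied if the fields `K i` are small and pairwise independent. -/
theorem result {I : Type} [Fintype I] (K : I → Type) [∀ i, Field (K i)] [∀ i, NumberField (K i)]
    [∀ i, IsCMField (K i)] :
    (∀ (p : ℕ) [Fact p.Prime] (a : ℕ), 0 < a → ∀ π : ∀ i, K i, IsWeilFamily p a π → IsSeparated π →
      ReductionGenerated π (p ^ a) → ∀ (ℓ : ℕ) [Fact ℓ.Prime], FrobeniusImpliesMumfordTate ℓ p a π) ∧
    ((∀ i, IsSmall (K i)) → (∀ i j, i ≠ j → AreIndependent (K i) (K j)) →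
      ∀ (p : ℕ) [Fact p.Prime] (a : ℕ), 0 < a → ∀ π : ∀ i, K i, IsWeilFamily p a π → IsSeparated π →
        ∀ (ℓ : ℕ) [Fact ℓ.Prime], FrobeniusImpliesMumfordTate ℓ p a π) := by
  constructor
  · intro p _ a ha π hπ hsep hgen ℓ _
    exact Helper43x.NF.sufficesMT_of_generated ha hπ hsep ((generated_iff _ _).1 hgen) ℓ
  · intro h1 h2 p hp a ha π hπ hsep ℓ _
    exact Helper43x.NF.sufficesMT_of_generated ha hπ hsep
      (Helper43x.NF.good_of_fields K ⟨h1, h2⟩ p hp.out a π hπ hsep) ℓ

end Pool.Agent.Results.MP_c1bb77_ag.ReductionWithoutExoticClasses
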